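import Pool.Agent.Q128.Mixing

/-!
# A connected non-bipartite graph with `M_c(G) = 4 < 5 = M(G)`

The graph is the cube `K_{4,4} - 4 K_2` joined by an edge to a triangle. The cube has a frozen
4-colouring. For `k > 4 q` it is `(k, q)`-mixing: either some colour is apart from all the colours of
one side, or the vertices near to each other are matched, and the cube decomposes into two 4-cycles
going once around the circle, of which the first can be rotated until one of its vertices is blocked by
the second; then the colour of this vertex is apart from all the colours of the other side.
-/

set_option autoImplicit false

namespace Pool.Agent.Results.MP_fe6464_co.CubeTriangle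

open Q128.Mixing

/-- **A non-bipartite graph whose circular mixing threshold is less than its mixing threshold.** -/
theorem result : ∃ (V : Type) (_ : Fintype V) (G : SimpleGraph V), G.Connected ∧
    ¬ G.Colorable 2 ∧ circularMixingThreshold G = 4 ∧ mixingThreshold G = 5 ∧
    circularMixingThreshold G < (mixingThreshold G : ℝ) := by
  refine ⟨_, inferInstance, Ex, ex_connected, ex_not_colorable, ex_circular, ex_threshold, ?_⟩
  rw [ex_circular, ex_threshold]
  norm_num

end Pool.Agent.Results.MP_fe6464_co.CubeTriangle
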